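import Pool.Agent.H91.Bim2

set_option autoImplicit false

open H91BN in
theorem Pool.Agent.Results.MP_f23f32_an.NotTRO.result :
   
    ∃ (H : Type) (_ : NormedAddCommGroup H) (_ : InnerProductSpace ℂ H) (_ : CompleteSpace H)
      (M A : VonNeumannAlgebra H) (ψ : (H →L[ℂ] H) → (H →L[ℂ] H)), (∀ x, x ∈ M) ∧
      RelComm M A ∧ Proj ψ ∧ Bimod A (Set.range ψ) ∧
      ¬ TRO (Set.range ψ) ∧ ¬ Trip (Set.range ψ) :=
  main
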